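import Mathlib

/-!
# BSD for `y² + y = x³` over towers of quadratic extensions: common definitions
-/

set_option autoImplicit false

namespace Pool.Agent.Lib.MP_1a91b9_ntT

open NumberField IsDedekindDomain

noncomputable section

instance neZero3 : NeZero ((3 : ℕ) : ℚ) := ⟨by norm_num⟩

/-- The field `K = ℚ(√-3)`. -/
def K : Type := CyclotomicField 3 ℚ

instance fieldK : Field K := inferInstanceAs (Field (CyclotomicField 3 ℚ))
instance charZeroK : CharZero K := inferInstanceAs (CharZero (CyclotomicField 3 ℚ))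
instance cycK : IsCyclotomicExtension {3} ℚ K := by
  have h : ∀ (i : Algebra ℚ (CyclotomicField 3 ℚ)),
      @IsCyclotomicExtension {3} ℚ (CyclotomicField 3 ℚ) _ _ i := by
    intro i
    have e : i = CyclotomicField.instAlgebra 3 ℚ ℚ := Subsingleton.elim _ _
    rw [e]
    exact CyclotomicField.isCyclotomicExtension 3 ℚ
  exact h _
instance numberFieldK : NumberField K := IsCyclotomicExtension.numberField {3} ℚ K

/-- A primitive cube root of unity of `K`. -/
def om : K := IsCyclotomicExtension.zeta 3 ℚ K

theorem om_spec : IsPrimitiveRoot om 3 := IsCyclotomicExtension.zeta_spec 3 ℚ K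

/-- The complex number `exp (2 π i / 3)`. -/
def zt : ℂ := Complex.exp (2 * Real.pi * Complex.I / (3 : ℕ))

theorem zt_spec : IsPrimitiveRoot zt 3 := Complex.isPrimitiveRoot_exp 3 (by norm_num)

/-- The embedding of `K` in `ℂ` which sends `om` to `zt`. -/
def embK : K →ₐ[ℚ] ℂ :=
  (om_spec.embeddingsEquivPrimitiveRoots ℂ
    (Polynomial.cyclotomic.irreducible_rat (by norm_num))).symm
    ⟨zt, (mem_primitiveRoots (by norm_num)).2 zt_spec⟩

instance algKC : Algebra K ℂ := embK.toRingHom.toAlgebra

theorem algebraMap_eq (x : K) : algebraMap K ℂ x = embK x := rfl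

theorem embK_om : embK om = zt := by
  have h := om_spec.embeddingsEquivPrimitiveRoots_apply_coe ℂ
    (Polynomial.cyclotomic.irreducible_rat (by norm_num)) embK
  rw [← h, embK, Equiv.apply_symm_apply]

/-- The elliptic curve `y² + y = x³`. -/
def E (F : Type*) [Field F] : WeierstrassCurve F := ⟨0, 0, 1, 0, 0⟩

/-- The order of `δ` at `v` is odd. -/
def OddAt {F : Type*} [Field F] (v : HeightOneSpectrum (𝓞 F)) (δ : 𝓞 F) : Prop :=
  ∃ k : ℕ, δ ∈ v.asIdeal ^ (2 * k + 1) ∧ δ ∉ v.asIdeal ^ (2 * k + 2)

/-- The admissible elements: `δ` is odd, congruent to a square modulo `4`, and at every prime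
`v` not above `3` where its order is odd, `2` is not a cube in the residue field. -/
structure Adm (F : Type*) [Field F] [NumberField F] (δ : 𝓞 F) : Prop where
  sq : ∃ a b : 𝓞 F, δ = a ^ 2 + 4 * b
  odd : IsCoprime δ 2
  bad : ∀ v : HeightOneSpectrum (𝓞 F), (3 : 𝓞 F) ∉ v.asIdeal → OddAt v δ →
    ∀ x : 𝓞 F, x ^ 3 - 2 ∉ v.asIdeal

universe u

/-- Towers of admissible quadratic extensions above `ℚ`. -/
inductive Tower : ∀ (N : Type u) [Field N] [NumberField N], Prop
  | base (N : Type u) [Field N] [NumberField N]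
      (h : Function.Bijective (algebraMap ℚ N)) : Tower N
  | step (N N' : Type u) [Field N] [NumberField N] [Field N'] [NumberField N']
      [Algebra N N'] (δ : 𝓞 N) (hδ : Adm N δ) (x : N')
      (hx : x ^ 2 = algebraMap N N' δ) (hn : ¬ ∃ y : N, algebraMap N N' y = x)
      (hgen : ∀ z : N', ∃ a b : N, z = algebraMap N N' a + algebraMap N N' b * x)
      (h : Tower N) : Tower N'

/-- Towers of admissible quadratic extensions above `K`. -/
inductive TowerK : ∀ (F : Type u) [Field F] [NumberField F] [Algebra K F], Prop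
  | base (F : Type u) [Field F] [NumberField F] [Algebra K F]
      (h : Function.Bijective (algebraMap K F)) : TowerK F
  | step (F F' : Type u) [Field F] [NumberField F] [Algebra K F] [Field F'] [NumberField F']
      [Algebra K F'] [Algebra F F'] [IsScalarTower K F F'] (δ : 𝓞 F) (hδ : Adm F δ) (x : F')
      (hx : x ^ 2 = algebraMap F F' δ) (hn : ¬ ∃ y : F, algebraMap F F' y = x)
      (hgen : ∀ z : F', ∃ a b : F, z = algebraMap F F' a + algebraMap F F' b * x)
      (h : TowerK F) : TowerK F'

end

end Pool.Agent.Lib.MP_1a91b9_ntT
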